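import Mathlib
import Pool.Agent.EWG.StmtsA

/-!
# Squad EWG, row RK2: the numbers with a certificate of two primes
-/

set_option autoImplicit false

namespace Pool.Agent.EWG.H75

open Pool.Agent.EWG

/-- if all prime factors of `j` are in `F`, then some element of `F` divides `d - j` -/
theorem claim {a d : ℕ} (hN : NoCoprimeInterior a d) (j : ℕ) (hj1 : 1 ≤ j) (hjd : j < d)
    (hF : ∀ r, r.Prime → r ∣ j → ¬ r ∣ d ∧ r ∣ a + d) :
    ∃ q, q.Prime ∧ q < d ∧ ¬ q ∣ d ∧ q ∣ a + d ∧ q ∣ d - j := by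
  rcases hN (a + j) (by omega) (by omega) with h | h
  · exfalso
    obtain ⟨r, hr, hrg⟩ := Nat.exists_prime_and_dvd (n := Nat.gcd a (a + j)) (by omega)
    have h1 : r ∣ a := hrg.trans (Nat.gcd_dvd_left _ _)
    have h2 : r ∣ a + j := hrg.trans (Nat.gcd_dvd_right _ _)
    have h3 : r ∣ j := (Nat.dvd_add_right h1).1 h2
    obtain ⟨h4, h5⟩ := hF r hr h3
    exact h4 ((Nat.dvd_add_right h1).1 h5)
  · obtain ⟨r, hr, hrg⟩ := Nat.exists_prime_and_dvd (n := Nat.gcd (a + j) (a + d)) (by omega)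
    have h1 : r ∣ a + j := hrg.trans (Nat.gcd_dvd_left _ _)
    have h2 : r ∣ a + d := hrg.trans (Nat.gcd_dvd_right _ _)
    have e : a + d = (a + j) + (d - j) := by omega
    have h3 : r ∣ d - j := by
      rw [e] at h2
      exact (Nat.dvd_add_right h1).1 h2
    have h4 : ¬ r ∣ d := by
      intro h5
      have e2 : d = (d - j) + j := by omega
      have h6 : r ∣ j := by
        rw [e2] at h5
        exact (Nat.dvd_add_right h3).1 h5
      exact (hF r hr h6).1 h5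
    have h7 : r ≤ d - j := Nat.le_of_dvd (by omega) h3
    exact ⟨r, hr, by omega, h4, h2, h3⟩

theorem core {a d l p : ℕ} (hN : NoCoprimeInterior a d) (hlp : l < p)
    (hl : l.Prime ∧ l < d ∧ ¬ l ∣ d ∧ l ∣ a + d) (hp : p.Prime ∧ p < d ∧ ¬ p ∣ d ∧ p ∣ a + d)
    (hall : ∀ q, q.Prime → q < d → ¬ q ∣ d → q ∣ a + d → q = l ∨ q = p) :
    l ∣ p - 1 ∧ d = p + l ∧ d < l ^ 2 := by
  obtain ⟨hl1, hl2, hl3, hl4⟩ := hl
  obtain ⟨hp1, hp2, hp3, hp4⟩ := hp
  have hl0 := hl1.two_le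
  -- `l ∣ d - p`
  have A1 : l ∣ d - p := by
    obtain ⟨q, h1, h2, h3, h4, h5⟩ := claim hN p hp1.one_lt.le hp2 (by
      intro r hr hrp
      rw [(Nat.prime_dvd_prime_iff_eq hr hp1).1 hrp]
      exact ⟨hp3, hp4⟩)
    rcases hall q h1 h2 h3 h4 with h | h
    · rw [h] at h5
      exact h5
    · exfalso
      rw [h] at h5
      have e : d = (d - p) + p := by omega
      exact hp3 (by rw [e]; exact dvd_add h5 dvd_rfl)
  have A2 : p ∣ d - l := by
    obtain ⟨q, h1, h2, h3, h4, h5⟩ := claim hN l hl1.one_lt.le hl2 (by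
      intro r hr hrp
      rw [(Nat.prime_dvd_prime_iff_eq hr hl1).1 hrp]
      exact ⟨hl3, hl4⟩)
    rcases hall q h1 h2 h3 h4 with h | h
    · exfalso
      rw [h] at h5
      have e : d = (d - l) + l := by omega
      exact hl3 (by rw [e]; exact dvd_add h5 dvd_rfl)
    · rw [h] at h5
      exact h5
  have A3 : d < l ^ 2 := by
    by_contra hc
    have hne : d ≠ l ^ 2 := by
      intro h
      exact hl3 (by rw [h]; exact dvd_pow_self l two_ne_zero)
    have hlt : l ^ 2 < d := by omega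
    obtain ⟨q, h1, h2, h3, h4, h5⟩ := claim hN (l ^ 2) (Nat.one_le_pow _ _ (by omega)) hlt (by
      intro r hr hrp
      rw [(Nat.prime_dvd_prime_iff_eq hr hl1).1 (hr.dvd_of_dvd_pow hrp)]
      exact ⟨hl3, hl4⟩)
    rcases hall q h1 h2 h3 h4 with h | h
    · rw [h] at h5
      have e : d = (d - l ^ 2) + l ^ 2 := by omega
      exact hl3 (by rw [e]; exact dvd_add h5 (dvd_pow_self l two_ne_zero))
    · rw [h] at h5
      have hsq : l ≤ l ^ 2 := Nat.le_self_pow two_ne_zero l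
      have e : d - l = (d - l ^ 2) + (l ^ 2 - l) := by omega
      rw [e] at A2
      have h6 : p ∣ l ^ 2 - l := (Nat.dvd_add_right h5).1 A2
      have e2 : l ^ 2 - l = l * (l - 1) := by rw [Nat.mul_sub, mul_one, sq]
      rw [e2] at h6
      rcases hp1.dvd_mul.1 h6 with h7 | h7
      · have := Nat.le_of_dvd (by omega) h7
        omega
      · have := Nat.le_of_dvd (by omega) h7
        omega
  have A4 : d = p + l := by
    have B1 : (l : ℤ) ∣ (d : ℤ) - p - l := by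
      have h1 : (l : ℤ) ∣ ((d - p : ℕ) : ℤ) := Int.natCast_dvd_natCast.2 A1
      rw [Nat.cast_sub hp2.le] at h1
      exact dvd_sub h1 dvd_rfl
    have B2 : (p : ℤ) ∣ (d : ℤ) - p - l := by
      have h1 : (p : ℤ) ∣ ((d - l : ℕ) : ℤ) := Int.natCast_dvd_natCast.2 A2
      rw [Nat.cast_sub hl2.le] at h1
      have h2 : (d : ℤ) - p - l = ((d : ℤ) - l) - p := by ring
      rw [h2]
      exact dvd_sub h1 dvd_rfl
    have hcop : IsCoprime (l : ℤ) (p : ℤ) := by
      rw [Nat.isCoprime_iff_coprime]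
      exact (Nat.coprime_primes hl1 hp1).2 (by omega)
    have B3 : (l : ℤ) * p ∣ (d : ℤ) - p - l := hcop.mul_dvd B1 B2
    have hlz : (0 : ℤ) < l := by exact_mod_cast hl1.pos
    have hlpz : (l : ℤ) < p := by exact_mod_cast hlp
    have hpd : (p : ℤ) < d := by exact_mod_cast hp2
    have hdl : (d : ℤ) < (l : ℤ) ^ 2 := by exact_mod_cast A3
    have B4 : |(d : ℤ) - p - l| < l * p := by
      rw [abs_lt]
      constructor
      · nlinarith
      · nlinarith
    have B5 : (d : ℤ) - p - l = 0 := Int.eq_zero_of_abs_lt_dvd B3 B4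
    have B6 : (d : ℤ) = ((p + l : ℕ) : ℤ) := by
      push_cast
      linarith
    exact_mod_cast B6
  refine ⟨?_, A4, A3⟩
  obtain ⟨q, h1, h2, h3, h4, h5⟩ := claim hN 1 le_rfl (by omega) (by
    intro r hr hr1
    exact absurd (Nat.dvd_one.1 hr1) hr.one_lt.ne')
  rcases hall q h1 h2 h3 h4 with h | h
  · rw [h, A4] at h5
    have e : p + l - 1 = (p - 1) + l := by omega
    rw [e] at h5
    exact (Nat.dvd_add_left dvd_rfl).1 h5
  · exfalso
    rw [h, A4] at h5
    have e : p + l - 1 = p + (l - 1) := by omega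
    rw [e] at h5
    have h6 : p ∣ l - 1 := (Nat.dvd_add_right dvd_rfl).1 h5
    have := Nat.le_of_dvd (by omega) h6
    omega

theorem rk2 : Rk2Stmt := by
  rintro d ⟨h3, a, hN, hc⟩
  obtain ⟨x, y, hxy, hS⟩ := Set.ncard_eq_two.1 hc
  have hx : x ∈ {p : ℕ | p.Prime ∧ p < d ∧ ¬ p ∣ d ∧ p ∣ a + d} := by
    rw [hS]
    exact Set.mem_insert _ _
  have hy : y ∈ {p : ℕ | p.Prime ∧ p < d ∧ ¬ p ∣ d ∧ p ∣ a + d} := by
    rw [hS]
    exact Set.mem_insert_of_mem _ rfl
  have hall : ∀ q, q.Prime → q < d → ¬ q ∣ d → q ∣ a + d → q = x ∨ q = y := by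
    intro q h1 h2 h4 h5
    have : q ∈ {p : ℕ | p.Prime ∧ p < d ∧ ¬ p ∣ d ∧ p ∣ a + d} := ⟨h1, h2, h4, h5⟩
    rw [hS] at this
    exact this
  rcases lt_or_gt_of_ne hxy with h | h
  · obtain ⟨e1, e2, e3⟩ := core hN h hx hy hall
    exact ⟨y, x, hy.1, hx.1, e1, e2, e3⟩
  · obtain ⟨e1, e2, e3⟩ := core hN h hy hx (fun q a1 a2 a3 a4 => (hall q a1 a2 a3 a4).symm)
    exact ⟨x, y, hx.1, hy.1, e1, e2, e3⟩

end Pool.Agent.EWG.H75
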